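import Pool.Agent.Helper65.IC.St2

/-!
# Project IC, module BO: convex subgroups of a bi-ordered group
-/

set_option autoImplicit false
set_option linter.unusedSectionVars false

universe u

namespace Pool.Agent.Helper6.IC

open Subgroup Pool.Agent.Helper65.IC

section

variable {G : Type u} [Group G]

theorem mem_cj {g x : G} {C : Subgroup G} : x ∈ cj g C ↔ g⁻¹ * x * g ∈ C := by
  constructor
  · rintro ⟨y, hy, rfl⟩
    have : g⁻¹ * (g * y * g⁻¹) * g = y := by group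
    change g⁻¹ * (g * y * g⁻¹) * g ∈ C
    rw [this]
    exact hy
  · intro h
    refine ⟨g⁻¹ * x * g, h, ?_⟩
    change g * (g⁻¹ * x * g) * g⁻¹ = x
    group

variable [LinearOrder G] [MulLeftMono G] [MulRightMono G]

/-! ### convex subgroups -/

theorem conv_mem {C : Subgroup G} (hC : (C : Set G).OrdConnected) {a b : G} (ha : a ∈ C)
    (h1 : 1 ≤ b) (h2 : b ≤ a) : b ∈ C :=
  hC.out C.one_mem ha ⟨h1, h2⟩

theorem chain_conv {A B : Subgroup G} (hA : (A : Set G).OrdConnected)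
    (hB : (B : Set G).OrdConnected) : A ≤ B ∨ B ≤ A := by
  by_cases h : A ≤ B
  · exact Or.inl h
  · right
    obtain ⟨a0, ha0, hb0⟩ := SetLike.not_le_iff_exists.1 h
    -- a positive witness
    obtain ⟨a, ha, hb, ha1⟩ : ∃ a, a ∈ A ∧ a ∉ B ∧ 1 ≤ a := by
      rcases le_total 1 a0 with h1 | h1
      · exact ⟨a0, ha0, hb0, h1⟩
      · exact ⟨a0⁻¹, A.inv_mem ha0, fun h => hb0 (by simpa using B.inv_mem h), one_le_inv'.2 h1⟩
    have key : ∀ q ∈ B, 1 ≤ q → q ∈ A := by
      intro q hq hq1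
      rcases le_total a q with h1 | h1
      · exact absurd (conv_mem hB hq ha1 h1) hb
      · exact conv_mem hA ha hq1 h1
    intro b hbB
    rcases le_total 1 b with h1 | h1
    · exact key b hbB h1
    · have := key b⁻¹ (B.inv_mem hbB) (one_le_inv'.2 h1)
      simpa using A.inv_mem this

theorem conv_cj {A : Subgroup G} (hA : (A : Set G).OrdConnected) (g : G) :
    ((cj g A : Subgroup G) : Set G).OrdConnected := by
  constructor
  intro u hu v hv w hw
  have hu' := mem_cj.1 hu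
  have hv' := mem_cj.1 hv
  refine mem_cj.2 (hA.out hu' hv' ⟨?_, ?_⟩)
  · exact mul_le_mul' (mul_le_mul' le_rfl hw.1) le_rfl
  · exact mul_le_mul' (mul_le_mul' le_rfl hw.2) le_rfl

/-- the largest convex subgroup without `x` -/
def Dx (x : G) (hx : x ≠ 1) : Subgroup G where
  carrier := {y | ∃ E : Subgroup G, (E : Set G).OrdConnected ∧ x ∉ E ∧ y ∈ E}
  one_mem' := by
    refine ⟨⊥, ?_, ?_, Subgroup.one_mem _⟩
    · constructor
      intro u hu v hv w hw
      have hu1 : u = 1 := hu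
      have hv1 : v = 1 := hv
      rw [hu1, hv1] at hw
      exact le_antisymm hw.2 hw.1
    · intro h
      exact hx h
  mul_mem' := by
    rintro a b ⟨E, h1, h2, h3⟩ ⟨F, h4, h5, h6⟩
    rcases chain_conv h1 h4 with h | h
    · exact ⟨F, h4, h5, F.mul_mem (h h3) h6⟩
    · exact ⟨E, h1, h2, E.mul_mem h3 (h h6)⟩
  inv_mem' := by
    rintro a ⟨E, h1, h2, h3⟩
    exact ⟨E, h1, h2, E.inv_mem h3⟩

theorem mem_Dx {x y : G} {hx : x ≠ 1} :
    y ∈ Dx x hx ↔ ∃ E : Subgroup G, (E : Set G).OrdConnected ∧ x ∉ E ∧ y ∈ E := Iff.rfl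

theorem Dx_conv (x : G) (hx : x ≠ 1) : ((Dx x hx : Subgroup G) : Set G).OrdConnected := by
  constructor
  rintro u ⟨E, h1, h2, h3⟩ v ⟨F, h4, h5, h6⟩ w hw
  rcases chain_conv h1 h4 with h | h
  · exact ⟨F, h4, h5, h4.out (h h3) h6 hw⟩
  · exact ⟨E, h1, h2, h1.out h3 (h h6) hw⟩

theorem notMem_Dx (x : G) (hx : x ≠ 1) : x ∉ Dx x hx := by
  rintro ⟨E, -, h2, h3⟩
  exact h2 h3

/-- the smallest convex subgroup with `x` -/
def Cx (x : G) : Subgroup G := sInf {E : Subgroup G | (E : Set G).OrdConnected ∧ x ∈ E}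

theorem mem_Cx {x y : G} :
    y ∈ Cx x ↔ ∀ E : Subgroup G, (E : Set G).OrdConnected → x ∈ E → y ∈ E := by
  unfold Cx
  rw [Subgroup.mem_sInf]
  constructor
  · intro h E h1 h2
    exact h E ⟨h1, h2⟩
  · rintro h E ⟨h1, h2⟩
    exact h E h1 h2

theorem Cx_conv (x : G) : ((Cx x : Subgroup G) : Set G).OrdConnected := by
  constructor
  intro u hu v hv w hw
  rw [SetLike.mem_coe, mem_Cx] at hu hv ⊢
  intro E h1 h2
  exact h1.out (hu E h1 h2) (hv E h1 h2) hw

theorem mem_Cx_self (x : G) : x ∈ Cx x := mem_Cx.2 fun _ _ h => h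

theorem Dx_le_Cx (x : G) (hx : x ≠ 1) : Dx x hx ≤ Cx x := by
  rintro y ⟨E, h1, h2, h3⟩
  rw [mem_Cx]
  intro F h4 h5
  rcases chain_conv h1 h4 with h | h
  · exact h h3
  · exact absurd (h h5) h2

theorem cmp (x : G) (hx : x ≠ 1) (E : Subgroup G) (hE : (E : Set G).OrdConnected) :
    E ≤ Dx x hx ∨ Cx x ≤ E := by
  by_cases h : x ∈ E
  · right
    intro y hy
    exact mem_Cx.1 hy E hE h
  · left
    intro y hy
    exact ⟨E, hE, h, hy⟩

/-- the normaliser of `C` normalises `D` -/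
theorem norm_D (x : G) (hx : x ≠ 1) (g : G)
    (hg' : ∀ y, y ∈ Cx x → g * y * g⁻¹ ∈ Cx x) (d : G)
    (hd : d ∈ Dx x hx) : g * d * g⁻¹ ∈ Dx x hx := by
  rcases cmp x hx _ (conv_cj (Dx_conv x hx) g) with h | h
  · apply h
    rw [mem_cj]
    have : g⁻¹ * (g * d * g⁻¹) * g = d := by group
    rw [this]
    exact hd
  · exfalso
    apply notMem_Dx x hx
    have h1 := h (hg' x (mem_Cx_self x))
    rw [mem_cj] at h1
    have : g⁻¹ * (g * x * g⁻¹) * g = x := by group
    rwa [this] at h1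

theorem tf {D : Subgroup G} (hD : (D : Set G).OrdConnected) (a : G) (n : ℕ) (hn : 0 < n)
    (h : a ^ n ∈ D) : a ∈ D := by
  rcases le_total 1 a with h1 | h1
  · exact conv_mem hD h h1 (le_self_pow h1 hn.ne')
  · have h2 := one_le_inv'.2 h1
    have h3 : a⁻¹ ∈ D := by
      apply conv_mem hD _ h2 (le_self_pow h2 hn.ne')
      rw [inv_pow]
      exact D.inv_mem h
    simpa using D.inv_mem h3

/-- the archimedean property of the jump -/
theorem arch (x : G) (hx : x ≠ 1) (a : G) (haD : a ∉ Dx x hx) (ha1 : 1 ≤ a)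
    (y : G) (hy : y ∈ Cx x) : ∃ n : ℕ, y ≤ a ^ n ∧ y⁻¹ ≤ a ^ n := by
  let H : Subgroup G :=
    { carrier := {y | ∃ n : ℕ, y ≤ a ^ n ∧ y⁻¹ ≤ a ^ n}
      one_mem' := ⟨0, by simp, by simp⟩
      mul_mem' := by
        rintro u v ⟨m, h1, h2⟩ ⟨n, h3, h4⟩
        refine ⟨m + n, ?_, ?_⟩
        · rw [pow_add]; exact mul_le_mul' h1 h3
        · rw [mul_inv_rev, add_comm, pow_add]; exact mul_le_mul' h4 h2
      inv_mem' := by
        rintro u ⟨m, h1, h2⟩
        exact ⟨m, h2, by rw [inv_inv]; exact h1⟩ }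
  have hH : (H : Set G).OrdConnected := by
    constructor
    rintro u ⟨m, h1, h2⟩ v ⟨n, h3, h4⟩ w hw
    refine ⟨m + n, ?_, ?_⟩
    · exact hw.2.trans (h3.trans (pow_le_pow_right' ha1 (by omega)))
    · exact (inv_le_inv_iff.2 hw.1).trans (h2.trans (pow_le_pow_right' ha1 (by omega)))
  have haH : a ∈ H := ⟨1, by simp, by rw [pow_one]; exact (inv_le_one'.2 ha1).trans ha1⟩
  rcases cmp x hx H hH with h | h
  · exact absurd (h haH) haD
  · exact h hy

/-! ### the real function -/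

theorem zstrict {e : G} (he : 1 < e) : StrictMono fun n : ℤ => e ^ n := by
  refine strictMono_int_of_lt_succ fun n => ?_
  rw [zpow_add_one]
  exact lt_mul_of_one_lt_right' (e ^ n) he

theorem zle {e : G} (he : 1 < e) {m n : ℤ} : e ^ m ≤ e ^ n ↔ m ≤ n := (zstrict he).le_iff_le

theorem zlt {e : G} (he : 1 < e) {m n : ℤ} : e ^ m < e ^ n ↔ m < n := (zstrict he).lt_iff_lt

theorem exists_fl (x : G) (hx : x ≠ 1) (e : G) (he : 1 < e) (heD : e ∉ Dx x hx) (w : G)
    (hw : w ∈ Cx x) : ∃ k : ℤ, e ^ k ≤ w ∧ w < e ^ (k + 1) := by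
  obtain ⟨n, h1, h2⟩ := arch x hx e heD he.le w hw
  obtain ⟨k, hk, hk'⟩ := Int.exists_greatest_of_bdd (P := fun k : ℤ => e ^ k ≤ w)
    ⟨n, fun z hz => (zle he).1 (hz.trans (by rw [zpow_natCast]; exact h1))⟩
    ⟨-n, by
      rw [zpow_neg, zpow_natCast]
      exact inv_le_of_inv_le' h2⟩
  refine ⟨k, hk, ?_⟩
  by_contra h
  push Not at h
  have := hk' (k + 1) h
  omega

/-- comparison of two cuts -/
theorem cut {e : G} (he : 1 < e) {y : G} {p p' : ℤ} {q q' : ℕ} (h1 : e ^ p ≤ y ^ q)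
    (h2 : y ^ q' ≤ e ^ p') : p * q' ≤ p' * q := by
  have h3 : (e ^ p) ^ q' ≤ (e ^ p') ^ q := by
    calc (e ^ p) ^ q' ≤ (y ^ q) ^ q' := pow_le_pow_left' h1 q'
      _ = (y ^ q') ^ q := by rw [← pow_mul, ← pow_mul, mul_comm]
      _ ≤ (e ^ p') ^ q := pow_le_pow_left' h2 q
  rw [← zpow_natCast, ← zpow_natCast, ← zpow_mul, ← zpow_mul] at h3
  exact (zle he).1 h3

/-- the real function -/
noncomputable def phi (e y : G) : ℝ :=
  sSup {r : ℝ | ∃ (p : ℤ) (q : ℕ), 0 < q ∧ e ^ p ≤ y ^ q ∧ r = p / q}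

theorem cut_real {e : G} (he : 1 < e) {y : G} {p p' : ℤ} {q q' : ℕ} (hq : 0 < q) (hq' : 0 < q')
    (h1 : e ^ p ≤ y ^ q) (h2 : y ^ q' ≤ e ^ p') : (p : ℝ) / q ≤ (p' : ℝ) / q' := by
  have h3 := cut he h1 h2
  rw [div_le_div_iff₀ (by exact_mod_cast hq) (by exact_mod_cast hq')]
  exact_mod_cast h3

theorem zero_of_bdd {a c : ℝ} (h : ∀ n : ℕ, 0 < n → n * |a| ≤ c) : a = 0 := by
  by_contra ha
  have h1 : 0 < |a| := abs_pos.2 ha
  obtain ⟨n, hn⟩ := exists_nat_gt (c / |a|)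
  have h2 := h (n + 1) (Nat.succ_pos n)
  rw [div_lt_iff₀ h1] at hn
  push_cast at h2
  nlinarith

section
variable (x : G) (hx : x ≠ 1) (e : G) (he : 1 < e) (heC : e ∈ Cx x) (heD : e ∉ Dx x hx)
include he heC heD

theorem phi_ge {y : G} (hy : y ∈ Cx x) {p : ℤ} {q : ℕ} (hq : 0 < q) (h : e ^ p ≤ y ^ q) :
    (p : ℝ) / q ≤ phi e y := by
  obtain ⟨k, hk1, hk2⟩ := exists_fl x hx e he heD y hy
  apply le_csSup
  · refine ⟨((k + 1 : ℤ) : ℝ) / ((1 : ℕ) : ℝ), ?_⟩
    rintro r ⟨p', q', hq', h', rfl⟩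
    exact cut_real he hq' one_pos h' (by rw [pow_one]; exact hk2.le)
  · exact ⟨p, q, hq, h, rfl⟩

theorem phi_le {y : G} (hy : y ∈ Cx x) {p : ℤ} {q : ℕ} (hq : 0 < q) (h : y ^ q ≤ e ^ p) :
    phi e y ≤ (p : ℝ) / q := by
  obtain ⟨k, hk1, hk2⟩ := exists_fl x hx e he heD y hy
  apply csSup_le
  · exact ⟨_, k, 1, one_pos, by rw [pow_one]; exact hk1, rfl⟩
  · rintro r ⟨p', q', hq', h', rfl⟩
    exact cut_real he hq' hq h' h

theorem phi_near {y : G} (hy : y ∈ Cx x) {n : ℕ} (hn : 0 < n) {k m : ℤ} (h1 : e ^ k ≤ y ^ n)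
    (h2 : y ^ n ≤ e ^ m) : (k : ℝ) ≤ n * phi e y ∧ n * phi e y ≤ m := by
  have hn' : (0 : ℝ) < n := by exact_mod_cast hn
  have h3 := phi_ge x hx e he heC heD hy hn h1
  have h4 := phi_le x hx e he heC heD hy hn h2
  rw [div_le_iff₀ hn'] at h3
  rw [le_div_iff₀ hn'] at h4
  constructor
  · linarith [mul_comm (phi e y) (n : ℝ)]
  · linarith [mul_comm (phi e y) (n : ℝ)]

theorem phi_mono {y z : G} (hy : y ∈ Cx x) (hz : z ∈ Cx x) (h : y ≤ z) : phi e y ≤ phi e z := by
  obtain ⟨k, hk1, hk2⟩ := exists_fl x hx e he heD y hy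
  apply csSup_le
  · exact ⟨_, k, 1, one_pos, by rw [pow_one]; exact hk1, rfl⟩
  · rintro r ⟨p', q', hq', h', rfl⟩
    exact phi_ge x hx e he heC heD hz hq' (h'.trans (pow_le_pow_left' h q'))

theorem phi_e : phi e e = 1 := by
  have h1 := phi_ge x hx e he heC heD heC (p := 1) (q := 1) one_pos (by simp)
  have h2 := phi_le x hx e he heC heD heC (p := 1) (q := 1) one_pos (by simp)
  simp only [Int.cast_one, Nat.cast_one, div_one] at h1 h2
  exact le_antisymm h2 h1

end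

theorem comm_pow {a b : G} (h : a * b ≤ b * a) (n : ℕ) : a ^ n * b ≤ b * a ^ n := by
  induction n with
  | zero => simp
  | succ n ih =>
    calc a ^ (n + 1) * b = a ^ n * (a * b) := by rw [pow_succ, mul_assoc]
      _ ≤ a ^ n * (b * a) := mul_le_mul' le_rfl h
      _ = (a ^ n * b) * a := by rw [mul_assoc]
      _ ≤ (b * a ^ n) * a := mul_le_mul' ih le_rfl
      _ = b * a ^ (n + 1) := by rw [mul_assoc, ← pow_succ]

theorem comm_pow' {a b : G} (h : a * b ≤ b * a) (n : ℕ) : a * b ^ n ≤ b ^ n * a := by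
  induction n with
  | zero => simp
  | succ n ih =>
    calc a * b ^ (n + 1) = (a * b ^ n) * b := by rw [pow_succ, mul_assoc]
      _ ≤ (b ^ n * a) * b := mul_le_mul' ih le_rfl
      _ = b ^ n * (a * b) := by rw [mul_assoc]
      _ ≤ b ^ n * (b * a) := mul_le_mul' le_rfl h
      _ = b ^ (n + 1) * a := by rw [pow_succ, mul_assoc]

theorem pow_lower {a b : G} (h : a * b ≤ b * a) (n : ℕ) : a ^ n * b ^ n ≤ (a * b) ^ n := by
  induction n with
  | zero => simp
  | succ n ih =>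
    calc a ^ (n + 1) * b ^ (n + 1) = a * (a ^ n * b) * b ^ n := by
          rw [pow_succ', pow_succ']; group
      _ ≤ a * (b * a ^ n) * b ^ n := mul_le_mul' (mul_le_mul' le_rfl (comm_pow h n)) le_rfl
      _ = (a * b) * (a ^ n * b ^ n) := by group
      _ ≤ (a * b) * (a * b) ^ n := mul_le_mul' le_rfl ih
      _ = (a * b) ^ (n + 1) := by rw [pow_succ']

theorem pow_upper {a b : G} (h : a * b ≤ b * a) (n : ℕ) : (b * a) ^ n ≤ b ^ n * a ^ n := by
  induction n with
  | zero => simp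
  | succ n ih =>
    calc (b * a) ^ (n + 1) = (b * a) ^ n * (b * a) := by rw [pow_succ]
      _ ≤ (b ^ n * a ^ n) * (b * a) := mul_le_mul' ih le_rfl
      _ = b ^ n * (a ^ n * b) * a := by group
      _ ≤ b ^ n * (b * a ^ n) * a := mul_le_mul' (mul_le_mul' le_rfl (comm_pow h n)) le_rfl
      _ = b ^ (n + 1) * a ^ (n + 1) := by rw [pow_succ, pow_succ]; group

/-- powers of a product -/
theorem pow_prod (y z u v : G) (n : ℕ) (h1 : u ≤ y ^ n * z ^ n) (h2 : u ≤ z ^ n * y ^ n)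
    (h3 : y ^ n * z ^ n ≤ v) (h4 : z ^ n * y ^ n ≤ v) : u ≤ (y * z) ^ n ∧ (y * z) ^ n ≤ v := by
  rcases le_total (y * z) (z * y) with h | h
  · exact ⟨h1.trans (pow_lower h n), (pow_le_pow_left' h n).trans ((pow_upper h n).trans h4)⟩
  · exact ⟨h2.trans ((pow_lower h n).trans (pow_le_pow_left' h n)), (pow_upper h n).trans h3⟩

section
variable (x : G) (hx : x ≠ 1) (e : G) (he : 1 < e) (heC : e ∈ Cx x) (heD : e ∉ Dx x hx)
include he heC heD

theorem phi_mul {y z : G} (hy : y ∈ Cx x) (hz : z ∈ Cx x) :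
    phi e (y * z) = phi e y + phi e z := by
  have h0 : phi e (y * z) - (phi e y + phi e z) = 0 := by
    apply zero_of_bdd (c := 2)
    intro n hn
    obtain ⟨k, hk1, hk2⟩ := exists_fl x hx e he heD (y ^ n) (pow_mem hy n)
    obtain ⟨l, hl1, hl2⟩ := exists_fl x hx e he heD (z ^ n) (pow_mem hz n)
    have e1 : e ^ (k + l) ≤ y ^ n * z ^ n := by
      rw [zpow_add]; exact mul_le_mul' hk1 hl1
    have e2 : e ^ (k + l) ≤ z ^ n * y ^ n := by
      rw [add_comm, zpow_add]; exact mul_le_mul' hl1 hk1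
    have e3 : y ^ n * z ^ n ≤ e ^ (k + l + 2) := by
      have : k + l + 2 = (k + 1) + (l + 1) := by ring
      rw [this, zpow_add]; exact mul_le_mul' hk2.le hl2.le
    have e4 : z ^ n * y ^ n ≤ e ^ (k + l + 2) := by
      have : k + l + 2 = (l + 1) + (k + 1) := by ring
      rw [this, zpow_add]; exact mul_le_mul' hl2.le hk2.le
    obtain ⟨e5, e6⟩ := pow_prod y z _ _ n e1 e2 e3 e4
    obtain ⟨f1, f2⟩ := phi_near x hx e he heC heD hy hn hk1 hk2.le
    obtain ⟨f3, f4⟩ := phi_near x hx e he heC heD hz hn hl1 hl2.le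
    obtain ⟨f5, f6⟩ := phi_near x hx e he heC heD (mul_mem hy hz) hn e5 e6
    push_cast at f2 f4 f5 f6
    have h5 : (n : ℝ) * |phi e (y * z) - (phi e y + phi e z)| =
        |n * phi e (y * z) - (n * phi e y + n * phi e z)| := by
      have hn' : (0 : ℝ) ≤ n := Nat.cast_nonneg n
      rw [← abs_of_nonneg hn', ← abs_mul, abs_of_nonneg hn']
      congr 1
      ring
    rw [h5, abs_le]
    constructor <;> linarith
  linarith

theorem phi_one : phi e (1 : G) = 0 := by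
  have h := phi_mul x hx e he heC heD (Cx x).one_mem (Cx x).one_mem
  rw [mul_one] at h
  linarith

theorem phi_inv {y : G} (hy : y ∈ Cx x) : phi e y⁻¹ = - phi e y := by
  have h := phi_mul x hx e he heC heD hy (inv_mem hy)
  rw [mul_inv_cancel, phi_one x hx e he heC heD] at h
  linarith

theorem phi_zpow {y : G} (hy : y ∈ Cx x) (k : ℤ) : phi e (y ^ k) = k * phi e y := by
  let F : Additive (Cx x) →+ ℝ := AddMonoidHom.mk' (fun y => phi e (y.toMul : G))
    (fun a b => phi_mul x hx e he heC heD a.toMul.2 b.toMul.2)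
  have h : F (k • Additive.ofMul ⟨y, hy⟩) = k • F (Additive.ofMul ⟨y, hy⟩) := map_zsmul F _ _
  rw [zsmul_eq_mul] at h
  exact h

theorem phi_ker {y : G} (hy : y ∈ Cx x) (h : phi e y = 0) : y ∈ Dx x hx := by
  by_contra hyD
  have key : ∀ z ∈ Cx x, z ∉ Dx x hx → 1 ≤ z → 0 < phi e z := by
    intro z hz hzD hz1
    obtain ⟨n, hn1, -⟩ := arch x hx z hzD hz1 e heC
    have hn : 0 < n := by
      rcases Nat.eq_zero_or_pos n with h0 | h0
      · rw [h0, pow_zero] at hn1
        exact absurd he (not_lt.2 hn1)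
      · exact h0
    have h1 := phi_ge x hx e he heC heD hz (p := 1) hn (by rw [zpow_one]; exact hn1)
    have h2 : (0 : ℝ) < ((1 : ℤ) : ℝ) / n := by
      have : (0 : ℝ) < n := by exact_mod_cast hn
      positivity
    linarith
  rcases le_total 1 y with h1 | h1
  · have := key y hy hyD h1
    linarith
  · have := key y⁻¹ (inv_mem hy) (fun h => hyD (by simpa using (Dx x hx).inv_mem h))
      (one_le_inv'.2 h1)
    rw [phi_inv x hx e he heC heD hy] at this
    linarith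

theorem phi_conj {g : G} (hg : ∀ y, y ∈ Cx x → g * y * g⁻¹ ∈ Cx x) {y : G} (hy : y ∈ Cx x) :
    phi e (g * y * g⁻¹) = phi e (g * e * g⁻¹) * phi e y := by
  have hconj : ∀ (w : G) (k : ℤ), g * w ^ k * g⁻¹ = (g * w * g⁻¹) ^ k := by
    intro w k
    exact (conj_zpow).symm
  have hz : ∀ k : ℤ, phi e (g * e ^ k * g⁻¹) = k * phi e (g * e * g⁻¹) := by
    intro k
    rw [hconj, phi_zpow x hx e he heC heD (hg e heC)]
  have hle : ∀ {u v : G}, u ≤ v → g * u * g⁻¹ ≤ g * v * g⁻¹ := fun h =>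
    mul_le_mul' (mul_le_mul' le_rfl h) le_rfl
  have hl0 : 0 ≤ phi e (g * e * g⁻¹) := by
    have h1 := phi_mono x hx e he heC heD (hg 1 (Cx x).one_mem) (hg e heC) (hle he.le)
    have h2 : g * 1 * g⁻¹ = 1 := by group
    rw [h2, phi_one x hx e he heC heD] at h1
    exact h1
  have h0 : phi e (g * y * g⁻¹) - phi e (g * e * g⁻¹) * phi e y = 0 := by
    apply zero_of_bdd (c := 2 * phi e (g * e * g⁻¹))
    intro n hn
    obtain ⟨k, hk1, hk2⟩ := exists_fl x hx e he heD (y ^ n) (pow_mem hy n)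
    obtain ⟨f1, f2⟩ := phi_near x hx e he heC heD hy hn hk1 hk2.le
    have h1 := phi_mono x hx e he heC heD (hg _ (zpow_mem heC k)) (hg _ (pow_mem hy n)) (hle hk1)
    have h2 := phi_mono x hx e he heC heD (hg _ (pow_mem hy n)) (hg _ (zpow_mem heC (k + 1)))
      (hle hk2.le)
    have h3 : phi e (g * y ^ n * g⁻¹) = n * phi e (g * y * g⁻¹) := by
      have h4 := hconj y n
      rw [zpow_natCast] at h4
      rw [h4, phi_zpow x hx e he heC heD (hg y hy)]
      push_cast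
      rfl
    rw [hz, h3] at h1
    rw [hz, h3] at h2
    push_cast at h2 f2
    have h5 : (n : ℝ) * |phi e (g * y * g⁻¹) - phi e (g * e * g⁻¹) * phi e y| =
        |n * phi e (g * y * g⁻¹) - phi e (g * e * g⁻¹) * (n * phi e y)| := by
      have hn' : (0 : ℝ) ≤ n := Nat.cast_nonneg n
      rw [← abs_of_nonneg hn', ← abs_mul, abs_of_nonneg hn']
      congr 1
      ring
    rw [h5, abs_le]
    have h6 : phi e (g * e * g⁻¹) * k ≤ phi e (g * e * g⁻¹) * (n * phi e y) :=
      mul_le_mul_of_nonneg_left f1 hl0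
    have h7 : phi e (g * e * g⁻¹) * (n * phi e y) ≤ phi e (g * e * g⁻¹) * (k + 1) :=
      mul_le_mul_of_nonneg_left f2 hl0
    constructor <;> nlinarith
  linarith

theorem acts : Acts (Dx x hx) (Cx x) 1 1 := by
  have hn : ∀ g ∈ normalizer (Cx x : Set G), ∀ y, y ∈ Cx x → g * y * g⁻¹ ∈ Cx x := by
    intro g hg y hy
    exact (Subgroup.mem_normalizer_iff.1 hg y).1 hy
  let N : Subgroup G := normalizer (Cx x : Set G)
  let L : N →* ℝ :=
    { toFun := fun g => phi e ((g : G) * e * (g : G)⁻¹)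
      map_one' := by
        show phi e ((1 : G) * e * (1 : G)⁻¹) = 1
        rw [one_mul, inv_one, mul_one]
        exact phi_e x hx e he heC heD
      map_mul' := by
        rintro ⟨g, hg⟩ ⟨h, hh⟩
        show phi e (g * h * e * (g * h)⁻¹) = phi e (g * e * g⁻¹) * phi e (h * e * h⁻¹)
        have h1 : g * h * e * (g * h)⁻¹ = g * (h * e * h⁻¹) * g⁻¹ := by group
        rw [h1, phi_conj x hx e he heC heD (hn g hg) (hn h hh e heC)] }
  refine ⟨N, le_rfl, ?_, ?_, ?_⟩
  · rw [Subgroup.relIndex_self]; exact one_ne_zero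
  · rw [Subgroup.relIndex_self]
  · rintro g ⟨g', hg', rfl⟩ a ha
    have h1 : g' ∈ commutator N := by
      have h2 : derivedSeries N 1 = commutator N := derivedSeries_one N
      rw [← h2]
      exact hg'
    have h3 := Abelianization.commutator_subset_ker L.toHomUnits h1
    have h4 : L g' = 1 := by
      have h5 := congrArg (fun u : ℝˣ => (u : ℝ)) (MonoidHom.mem_ker.1 h3)
      exact h5
    have h6 : phi e ((g' : G) * e * (g' : G)⁻¹) = 1 := h4
    have hgn := hn g' g'.2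
    apply phi_ker x hx e he heC heD
    · have h7 : a * N.subtype g' * a⁻¹ * (N.subtype g')⁻¹ = a * ((g' : G) * a⁻¹ * (g' : G)⁻¹) := by
        show a * (g' : G) * a⁻¹ * (g' : G)⁻¹ = _
        group
      rw [h7]
      exact mul_mem ha (hgn _ (inv_mem ha))
    · have h7 : a * N.subtype g' * a⁻¹ * (N.subtype g')⁻¹ = a * ((g' : G) * a⁻¹ * (g' : G)⁻¹) := by
        show a * (g' : G) * a⁻¹ * (g' : G)⁻¹ = _
        group
      rw [h7, phi_mul x hx e he heC heD ha (hgn _ (inv_mem ha)),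
        phi_conj x hx e he heC heD hgn (inv_mem ha), h6, phi_inv x hx e he heC heD ha]
      ring

end

theorem pBO : StBO.{u} := by
  intro G _ _ _ _
  constructor
  · constructor
    · intro A hA B hB
      exact chain_conv hA hB
    · intro g A hA
      exact conv_cj hA g
  · intro x hx
    refine ⟨Dx x hx, Cx x, ?_, mem_Cx_self x, notMem_Dx x hx, ?_⟩
    · refine ⟨Dx_conv x hx, Cx_conv x, Dx_le_Cx x hx, fun E hE => cmp x hx E hE, ?_, ?_⟩
      · intro c hc d hd
        exact norm_D x hx c (fun y hy => mul_mem (mul_mem hc hy) (inv_mem hc)) d hd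
      · intro a _ n hn h
        exact tf (Dx_conv x hx) a n hn h
    · rcases lt_or_gt_of_ne hx with h | h
      · exact acts x hx x⁻¹ (one_lt_inv'.2 h) (inv_mem (mem_Cx_self x))
          (fun h' => notMem_Dx x hx (by simpa using (Dx x hx).inv_mem h'))
      · exact acts x hx x h (mem_Cx_self x) (notMem_Dx x hx)

end

end Pool.Agent.Helper6.IC
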